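import Pool.Agent.N407.BZ.NearAV
import Pool.Agent.N407.BZ.Mom
import Pool.Agent.N375.AV.Ex
import Pool.Agent.Results.MP_047497_nt.AlmostAllWeights

/-!
# All moments of the Barnes multiple zeta function for almost all weights over intervals near the values of compositions of
additive functions

Let `A = f_1 ∘ ⋯ ∘ f_k` be a composition of functions dominated by the largest prime factor: for example additive functions
`f` with `f (q^j) ≤ C q^j` at the prime powers, with different values at different large primes (the sum of the prime factors),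
the largest prime factor itself, and Kempner's function. Let `G` be a function with steps bounded below by a positive constant
and growth at most `v ^ δ`. Let `0 ≤ κ < 1` and `δ (1 - 2 η) + κ < 1`.

For every `d` and almost every `v ∈ ℝ^d` the following holds for all `r ≥ 2`, all positive weights `w` with
`ℚ w₁ + ⋯ + ℚ w_r = ℚ v₁ + ⋯ + ℚ v_d` (so that the dimension is `d`) and all `a > 0` and `σ₁`: for all `m ≤ N` with `A(m) ≥ 1` but
`K N exp (- b (log N) ^ (1 / (k + 1)))`, for ALL intervals `[x, y]` with `2 ≤ x` in the window of length `2 A(m) ^ κ` at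
`G(A(m))`, ALL `j` and all `σ ∈ [r - d/2, σ₁]`: `∫_x^y |ζ_r(σ + it; a, w)|^{2j} dt ≤ (y - x) y^{2 j η}`. For functions `G` of
linear growth every `η > 0` is admissible, with `κ < 2 η` (for example `κ = 0`). The values of `A` are taken with very large
multiplicities and `A(m)` is in general much smaller than `m`, so this does not follow from the measure of the exceptional
ordinates; the mean square over `[1, T]` (`AlmostAllWeights`) gives nothing for `j ≥ 2` and nothing for single intervals of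
bounded length.
-/

set_option autoImplicit false

namespace Pool.Agent.Results.MP_047497_nt.AdditiveValues

open Pool.Agent.N733.TG (Expanding expanding_pow)
open Pool.Agent.N375.AV (PD comp pd_additive pd_largest pd_kempner)
open Pool.Agent.Results.MP_047497_nt.AlmostAllWeights (IsBarnesZeta weightDim exists_zeta span_of_matrix)

/-- All moments over the intervals near the values `G (A m)`, `A` the composition `comp fs`: with `d` the dimension of the
weights, for all `a > 0`, all lists `fs` of functions dominated by the largest prime factor and all `G` as above, all `σ₁`, `η`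
and `0 ≤ κ < 1` with `δ (1 - 2 η) + κ < 1`, for all `m ≤ N` with `A m ≥ 1` but `K N exp (- b (log N) ^ (1 / (k + 1)))`:
`∫_x^y |ζ_r(σ + it, a, w)|^{2j} dt ≤ (y - x) y^{2 j η}` for all `j`, all `σ ∈ [r - d/2, σ₁]` and all `2 ≤ x ≤ y` with
`|x - G (A m)| ≤ A(m) ^ κ` and `|y - G (A m)| ≤ A(m) ^ κ`. -/
def MomentsNearValues (r : ℕ) (w : Fin r → ℝ) : Prop :=
  ∀ (a : ℝ) (Z : ℂ → ℂ), 0 < a → IsBarnesZeta r a w Z → ∀ fs : List (ℕ → ℕ), (∀ f ∈ fs, PD f) →
    ∀ (G : ℕ → ℝ) (δ : ℝ), Expanding G δ → ∀ σ₁ η κ : ℝ, 0 ≤ κ → κ < 1 → δ * (1 - 2 * η) + κ < 1 →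
    ∃ b K : ℝ, 0 < b ∧ ∀ N : ℕ, 1 ≤ N →
      ({m : ℕ | 1 ≤ m ∧ m ≤ N ∧ 1 ≤ comp fs m ∧ ¬ ∀ (j : ℕ) (σ x y : ℝ), (r : ℝ) - (weightDim r w : ℝ) / 2 ≤ σ → σ ≤ σ₁ →
        2 ≤ x → x ≤ y → |x - G (comp fs m)| ≤ (comp fs m : ℝ) ^ κ → |y - G (comp fs m)| ≤ (comp fs m : ℝ) ^ κ →
          ∫ t in x..y, ‖Z (σ + t * Complex.I)‖ ^ (2 * j) ≤ (y - x) * y ^ (2 * j * η)}.ncard : ℝ) ≤
          K * N * Real.exp (-(b * Real.log N ^ ((1 : ℝ) / (fs.length + 1))))

theorem zeta_eq {r : ℕ} {a : ℝ} {w : Fin r → ℝ} {c : ℕ → ℂ} (ha : 0 < a) (hw : ∀ i, 0 < w i)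
    (hc : Pool.Agent.Y930.Bz.Tay a w c) {Z : ℂ → ℂ} (hZ : IsBarnesZeta r a w Z) (σ : ℝ) {t : ℝ}
    (ht : 0 < t) : Z ((σ : ℂ) + t * Complex.I) =
      Pool.Agent.H131R5.BZ.FF a w c ((σ : ℂ) + t * Complex.I) := by
  have hE := Pool.Agent.Y930.Bz.eq_FF ha hw hc (fun s hs => hZ.holomorphic s hs)
    (fun s hs => hZ.series s hs)
  have hm : ((σ : ℂ) + t * Complex.I) ∈ Pool.Agent.Y930.Bz.Om r := by
    intro k _ _ h
    have := congrArg Complex.im h
    simp at this
    linarith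
  exact hE _ hm

theorem weightDim_eq {d : ℕ} {v : Fin d → ℝ} (hv : LinearIndependent ℚ v) {r : ℕ} {w : Fin r → ℝ}
    (hspan : Submodule.span ℚ (Set.range w) = Submodule.span ℚ (Set.range v)) :
    weightDim r w = d := by
  unfold weightDim
  rw [hspan, finrank_span_eq_card hv]
  simp

theorem small_of_good {d : ℕ} {v : Fin d → ℝ} (hv : LinearIndependent ℚ v)
    (hG : Pool.Agent.Y616.BM.Good v) {r : ℕ} (hr : 2 ≤ r) {w : Fin r → ℝ} (hw : ∀ i, 0 < w i)
    (hspan : Submodule.span ℚ (Set.range w) = Submodule.span ℚ (Set.range v)) : MomentsNearValues r w := by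
  intro a Z ha hZ fs hfs G δ hE σ₁ η κ hκ hκ1 h
  rw [weightDim_eq hv hspan]
  obtain ⟨c, hc⟩ := Pool.Agent.H131R5.BZ.exists_taylor a hw
  have hη : 0 ≤ η := by
    have h1 := hE.one_le
    nlinarith
  obtain ⟨b, K, hb, hK⟩ := Pool.Agent.N407.BZ.ff_add hv hG hr ha hw hspan hc fs hfs hE σ₁ hη hκ hκ1 h
  refine ⟨b, K, hb, fun N hN => le_trans ?_ (hK N hN)⟩
  have hfin : {m : ℕ | 1 ≤ m ∧ m ≤ N ∧ 1 ≤ comp fs m ∧ ∃ t σ : ℝ, 2 ≤ t ∧ |t - G (comp fs m)| ≤ (comp fs m : ℝ) ^ κ ∧
      (r : ℝ) - d / 2 ≤ σ ∧ σ ≤ σ₁ ∧ t ^ η < ‖Pool.Agent.H131R5.BZ.FF a w c ((σ : ℂ) + t * Complex.I)‖}.Finite :=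
    (Set.finite_Iic N).subset (fun m hm => hm.2.1)
  refine Nat.cast_le.2 (Set.ncard_le_ncard ?_ hfin)
  rintro m ⟨g1, g2, g0, g3⟩
  refine ⟨g1, g2, g0, ?_⟩
  by_contra hcon
  push Not at hcon
  refine g3 (fun k σ A B h1 h2 h3 h4 h5 h6 => Pool.Agent.N407.BZ.moment_le h3 h4 hη (fun t ht1 ht2 => ?_) k)
  rw [zeta_eq ha hw hc hZ σ (by linarith)]
  exact hcon t σ (by linarith) (Pool.Agent.N407.BZ.mid_win ht1 ht2 h5 h6) h1 h2

/-- (1) The Barnes multiple zeta function exists (as defined in `AlmostAllWeights`) for all `r`, `a > 0` and positive weights `w`.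
(2) For every `d` and almost every `v ∈ ℝ^d`: all positive weights `w`, in any number `r ≥ 2`, which span the same `ℚ`-space as
`v` have dimension `d` and satisfy `MomentsNearValues`. (3) For `2 ≤ r` and every rational `r × d` matrix `B` of rank `d`, for
almost every `v ∈ ℝ^d` this holds for the weights `w = B v`, if they are positive. (4) Almost all positive `w ∈ ℝ^r`, `r ≥ 2`,
have dimension `r` and satisfy `MomentsNearValues`. (5) Additive functions `f` with `f (q^j) ≤ C q^j` at the prime powers and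
different values at different large primes, the largest prime factor and Kempner's function are examples of the functions in
`fs`, and `α v ^ δ` with `α > 0`, `δ ≥ 1` is an example of `G`. -/
theorem result :
    (∀ (r : ℕ) (a : ℝ) (w : Fin r → ℝ), 0 < a → (∀ i, 0 < w i) →
      ∃ Z : ℂ → ℂ, IsBarnesZeta r a w Z) ∧
    (∀ d : ℕ, ∀ᵐ v : Fin d → ℝ, LinearIndependent ℚ v ∧
      ∀ (r : ℕ) (w : Fin r → ℝ), 2 ≤ r → (∀ i, 0 < w i) →
        Submodule.span ℚ (Set.range w) = Submodule.span ℚ (Set.range v) →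
        weightDim r w = d ∧ MomentsNearValues r w) ∧
    (∀ r d : ℕ, 2 ≤ r → ∀ B : Matrix (Fin r) (Fin d) ℚ, Function.Injective B.mulVec →
      ∀ᵐ v : Fin d → ℝ, (∀ i, 0 < (B.map (fun q : ℚ => (q : ℝ))).mulVec v i) →
        weightDim r ((B.map (fun q : ℚ => (q : ℝ))).mulVec v) = d ∧
          MomentsNearValues r ((B.map (fun q : ℚ => (q : ℝ))).mulVec v)) ∧
    (∀ r : ℕ, 2 ≤ r → ∀ᵐ w : Fin r → ℝ, (∀ i, 0 < w i) →
      weightDim r w = r ∧ MomentsNearValues r w) ∧
    (∀ f : ℕ → ℕ, (∀ a b : ℕ, Nat.Coprime a b → f (a * b) = f a + f b) →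
      (∃ C : ℕ, ∀ q j : ℕ, q.Prime → 1 ≤ j → f (q ^ j) ≤ C * q ^ j) →
      (∃ P : ℕ, ∀ p q : ℕ, p.Prime → q.Prime → P ≤ p → P ≤ q → f p = f q → p = q) → PD f) ∧
    (PD (fun n => n.primeFactors.sup id) ∧ PD (fun n => sInf {k : ℕ | n ∣ k.factorial})) ∧
    ∀ α δ : ℝ, 0 < α → 1 ≤ δ → Expanding (fun v => α * (v : ℝ) ^ δ) δ := by
  refine ⟨exists_zeta, fun d => ?_, fun r d hr B hB => ?_, fun r hr => ?_, fun f h2 h3 h4 => pd_additive h2 h3 h4, ⟨pd_largest, pd_kempner⟩,
    fun α δ hα hδ => expanding_pow hα hδ⟩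
  · filter_upwards [Pool.Agent.Y616.BM.ae_good d, Pool.Agent.Y616.BM.ae_indep d] with v hG hv
    exact ⟨hv, fun r w hr hw hspan => ⟨weightDim_eq hv hspan, small_of_good hv hG hr hw hspan⟩⟩
  · filter_upwards [Pool.Agent.Y616.BM.ae_good d, Pool.Agent.Y616.BM.ae_indep d] with v hG hv hw
    have hspan := span_of_matrix B hB v
    exact ⟨weightDim_eq hv hspan, small_of_good hv hG hr hw hspan⟩
  · filter_upwards [Pool.Agent.Y616.BM.ae_good r, Pool.Agent.Y616.BM.ae_indep r] with v hG hv hw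
    exact ⟨weightDim_eq hv rfl, small_of_good hv hG hr hw rfl⟩

end Pool.Agent.Results.MP_047497_nt.AdditiveValues
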