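import Pool.Agent.N407.BZ.Near
import Pool.Agent.N407.BZ.Mom
import Pool.Agent.Results.MP_047497_nt.AlmostAllWeights

/-!
# All moments of the Barnes multiple zeta function for almost all weights over intervals near values of multiplicative functions

Let `f` be a positive multiplicative function of at most polynomial growth such that `f p ≤ M p` for the large primes `p`, with
different values at different large primes; for example Euler's function or the sum of the divisors. Let `G` be a function with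
steps bounded below by a positive constant and growth at most `v ^ δ`, for example `G v = α v ^ δ`. Let `0 ≤ κ < 1` and
`δ (1 - 2 η) + κ < 1`.

For every `d` and almost every `v ∈ ℝ^d` the following holds for all `r ≥ 2`, all positive weights `w` with
`ℚ w₁ + ⋯ + ℚ w_r = ℚ v₁ + ⋯ + ℚ v_d` (so that the dimension is `d`) and all `a > 0`, `σ₁` and `U`: for all `m ≤ N` but
`N / (log N) ^ U`, for ALL intervals `[A, B]` with `2 ≤ A` in the window of length `2 f(m) ^ κ` at `G(f(m))`, ALL `k` and all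
`σ ∈ [r - d/2, σ₁]`: `∫_A^B |ζ_r(σ + it; a, w)|^{2k} dt ≤ (B - A) B^{2 k η}`. For functions `G` of linear growth every `η > 0`
is admissible, with `κ < 2 η` (for example `κ = 0`): the mean values of ALL orders, the content of Q1 for all `k` and all
`σ ≥ r - d/2`, are `O(B ^ ε)` over the intervals of a fixed length at `G(φ(m))` for almost all `m`. The mean square over
`[1, T]` (`AlmostAllWeights`) gives nothing for `k ≥ 2` and nothing for single intervals of bounded length.

Proof idea: Cauchy's formula with a Gaussian weight bounds the square of the supremum over the strip and over a unit interval of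
ordinates by a local mean square on a line further to the left, uniformly; with the mean square for almost all weights the number
of the `n ≤ X` such that the bound `t ^ η` fails at some `t ∈ [n, n + 1]` is `O(X ^ (1 - 2 η + ε))`. The values of `f` keep away
from sets with such a power saving (helper733, N733/TG), although they are in general taken with very large multiplicities.
-/

set_option autoImplicit false

namespace Pool.Agent.Results.MP_047497_nt.MultiplicativeValues

open Pool.Agent.N733.TG (LM Expanding lm_totient lm_sigma expanding_pow)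
open Pool.Agent.Results.MP_047497_nt.AlmostAllWeights (IsBarnesZeta weightDim exists_zeta span_of_matrix)

/-- All moments over the intervals near the values `G (f m)`: with `d` the dimension of the weights, for all `a > 0`, all
multiplicative functions `f` and all `G` as above, all `σ₁`, `η` and `0 ≤ κ < 1` with `δ (1 - 2 η) + κ < 1` and all `U`, for all
`m ≤ N` but `N / (log N) ^ U`: `∫_A^B |ζ_r(σ + it, a, w)|^{2k} dt ≤ (B - A) B^{2 k η}` for all `k`, all `σ ∈ [r - d/2, σ₁]` and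
all `2 ≤ A ≤ B` with `|A - G (f m)| ≤ f(m) ^ κ` and `|B - G (f m)| ≤ f(m) ^ κ`. -/
def MomentsNearValues (r : ℕ) (w : Fin r → ℝ) : Prop :=
  ∀ (a : ℝ) (Z : ℂ → ℂ), 0 < a → IsBarnesZeta r a w Z → ∀ f : ℕ → ℕ, LM f → ∀ (G : ℕ → ℝ) (δ : ℝ), Expanding G δ →
    ∀ σ₁ η κ : ℝ, 0 ≤ κ → κ < 1 → δ * (1 - 2 * η) + κ < 1 → ∀ U : ℕ, ∃ N₀ : ℕ, ∀ N : ℕ, N₀ ≤ N →
      ({m : ℕ | 1 ≤ m ∧ m ≤ N ∧ ¬ ∀ (k : ℕ) (σ A B : ℝ), (r : ℝ) - (weightDim r w : ℝ) / 2 ≤ σ → σ ≤ σ₁ → 2 ≤ A → A ≤ B →
        |A - G (f m)| ≤ (f m : ℝ) ^ κ → |B - G (f m)| ≤ (f m : ℝ) ^ κ →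
          ∫ t in A..B, ‖Z (σ + t * Complex.I)‖ ^ (2 * k) ≤ (B - A) * B ^ (2 * k * η)}.ncard : ℝ) ≤
          N / Real.log N ^ U

theorem zeta_eq {r : ℕ} {a : ℝ} {w : Fin r → ℝ} {c : ℕ → ℂ} (ha : 0 < a) (hw : ∀ i, 0 < w i)
    (hc : Pool.Agent.Y930.Bz.Tay a w c) {Z : ℂ → ℂ} (hZ : IsBarnesZeta r a w Z) (σ : ℝ) {t : ℝ}
    (ht : 0 < t) : Z ((σ : ℂ) + t * Complex.I) =
      Pool.Agent.H131R5.BZ.FF a w c ((σ : ℂ) + t * Complex.I) := by
  have hE := Pool.Agent.Y930.Bz.eq_FF ha hw hc (fun s hs => hZ.holomorphic s hs)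
    (fun s hs => hZ.series s hs)
  have hm : ((σ : ℂ) + t * Complex.I) ∈ Pool.Agent.Y930.Bz.Om r := by
    intro k _ _ h
    have := congrArg Complex.im h
    simp at this
    linarith
  exact hE _ hm

theorem weightDim_eq {d : ℕ} {v : Fin d → ℝ} (hv : LinearIndependent ℚ v) {r : ℕ} {w : Fin r → ℝ}
    (hspan : Submodule.span ℚ (Set.range w) = Submodule.span ℚ (Set.range v)) :
    weightDim r w = d := by
  unfold weightDim
  rw [hspan, finrank_span_eq_card hv]
  simp

theorem small_of_good {d : ℕ} {v : Fin d → ℝ} (hv : LinearIndependent ℚ v)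
    (hG : Pool.Agent.Y616.BM.Good v) {r : ℕ} (hr : 2 ≤ r) {w : Fin r → ℝ} (hw : ∀ i, 0 < w i)
    (hspan : Submodule.span ℚ (Set.range w) = Submodule.span ℚ (Set.range v)) : MomentsNearValues r w := by
  intro a Z ha hZ f hf G δ hE σ₁ η κ hκ hκ1 h U
  rw [weightDim_eq hv hspan]
  obtain ⟨c, hc⟩ := Pool.Agent.H131R5.BZ.exists_taylor a hw
  have hη : 0 ≤ η := by
    have h1 := hE.one_le
    nlinarith
  obtain ⟨N₀, hN₀⟩ := Pool.Agent.N407.BZ.ff_mult hv hG hr ha hw hspan hc hf hE σ₁ hη hκ hκ1 h U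
  refine ⟨N₀, fun N hN => le_trans ?_ (hN₀ N hN)⟩
  have hfin : {m : ℕ | 1 ≤ m ∧ m ≤ N ∧ ∃ t σ : ℝ, 2 ≤ t ∧ |t - G (f m)| ≤ (f m : ℝ) ^ κ ∧ (r : ℝ) - d / 2 ≤ σ ∧ σ ≤ σ₁ ∧
      t ^ η < ‖Pool.Agent.H131R5.BZ.FF a w c ((σ : ℂ) + t * Complex.I)‖}.Finite :=
    (Set.finite_Iic N).subset (fun m hm => hm.2.1)
  refine Nat.cast_le.2 (Set.ncard_le_ncard ?_ hfin)
  rintro m ⟨g1, g2, g3⟩
  refine ⟨g1, g2, ?_⟩
  by_contra hcon
  push Not at hcon
  refine g3 (fun k σ A B h1 h2 h3 h4 h5 h6 => Pool.Agent.N407.BZ.moment_le h3 h4 hη (fun t ht1 ht2 => ?_) k)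
  rw [zeta_eq ha hw hc hZ σ (by linarith)]
  exact hcon t σ (by linarith) (Pool.Agent.N407.BZ.mid_win ht1 ht2 h5 h6) h1 h2

/-- (1) The Barnes multiple zeta function exists (as defined in `AlmostAllWeights`) for all `r`, `a > 0` and positive weights `w`.
(2) For every `d` and almost every `v ∈ ℝ^d`: all positive weights `w`, in any number `r ≥ 2`, which span the same `ℚ`-space as
`v` have dimension `d` and satisfy `MomentsNearValues`. (3) For `2 ≤ r` and every rational `r × d` matrix `B` of rank `d`, for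
almost every `v ∈ ℝ^d` this holds for the weights `w = B v`, if they are positive. (4) Almost all positive `w ∈ ℝ^r`, `r ≥ 2`,
have dimension `r` and satisfy `MomentsNearValues`. (5) Euler's function and the sum of the divisors are examples of `f`, and
`α v ^ δ` with `α > 0`, `δ ≥ 1` is an example of `G`. -/
theorem result :
    (∀ (r : ℕ) (a : ℝ) (w : Fin r → ℝ), 0 < a → (∀ i, 0 < w i) →
      ∃ Z : ℂ → ℂ, IsBarnesZeta r a w Z) ∧
    (∀ d : ℕ, ∀ᵐ v : Fin d → ℝ, LinearIndependent ℚ v ∧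
      ∀ (r : ℕ) (w : Fin r → ℝ), 2 ≤ r → (∀ i, 0 < w i) →
        Submodule.span ℚ (Set.range w) = Submodule.span ℚ (Set.range v) →
        weightDim r w = d ∧ MomentsNearValues r w) ∧
    (∀ r d : ℕ, 2 ≤ r → ∀ B : Matrix (Fin r) (Fin d) ℚ, Function.Injective B.mulVec →
      ∀ᵐ v : Fin d → ℝ, (∀ i, 0 < (B.map (fun q : ℚ => (q : ℝ))).mulVec v i) →
        weightDim r ((B.map (fun q : ℚ => (q : ℝ))).mulVec v) = d ∧
          MomentsNearValues r ((B.map (fun q : ℚ => (q : ℝ))).mulVec v)) ∧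
    (∀ r : ℕ, 2 ≤ r → ∀ᵐ w : Fin r → ℝ, (∀ i, 0 < w i) →
      weightDim r w = r ∧ MomentsNearValues r w) ∧
    (LM Nat.totient ∧ LM (fun m => ∑ d ∈ m.divisors, d)) ∧
    ∀ α δ : ℝ, 0 < α → 1 ≤ δ → Expanding (fun v => α * (v : ℝ) ^ δ) δ := by
  refine ⟨exists_zeta, fun d => ?_, fun r d hr B hB => ?_, fun r hr => ?_, ⟨lm_totient, lm_sigma⟩,
    fun α δ hα hδ => expanding_pow hα hδ⟩
  · filter_upwards [Pool.Agent.Y616.BM.ae_good d, Pool.Agent.Y616.BM.ae_indep d] with v hG hv
    exact ⟨hv, fun r w hr hw hspan => ⟨weightDim_eq hv hspan, small_of_good hv hG hr hw hspan⟩⟩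
  · filter_upwards [Pool.Agent.Y616.BM.ae_good d, Pool.Agent.Y616.BM.ae_indep d] with v hG hv hw
    have hspan := span_of_matrix B hB v
    exact ⟨weightDim_eq hv hspan, small_of_good hv hG hr hw hspan⟩
  · filter_upwards [Pool.Agent.Y616.BM.ae_good r, Pool.Agent.Y616.BM.ae_indep r] with v hG hv hw
    exact ⟨weightDim_eq hv rfl, small_of_good hv hG hr hw rfl⟩

end Pool.Agent.Results.MP_047497_nt.MultiplicativeValues
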