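import Pool.Agent.N407.BZ.NearDA
import Pool.Agent.N407.BZ.Mom
import Pool.Agent.Results.MP_047497_nt.AlmostAllWeights

/-!
# All moments of the Barnes multiple zeta function for almost all weights over intervals near functions of the denominators of
good approximations

Let `α_1, …, α_M` be real numbers. We consider the natural numbers `q` with `‖q α_j - β_j‖ ≤ b q^(-τ)` for all `j`, `‖x‖` the
distance to the nearest integer; for `β = 0`, `b = 1`, `τ = 1 / M` these include the denominators of all best simultaneous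
approximations (the denominators of the convergents for `M = 1`), a very sparse sequence. Let `G` be a function with steps
bounded below by a positive constant and growth at most `v ^ δ`, for example `c v ^ δ`. Let `0 ≤ κ ≤ 1` and `η ≥ 0`.

For every `d` and almost every `v ∈ ℝ^d` the following holds for all `r ≥ 2`, all positive weights `w` with
`ℚ w₁ + ⋯ + ℚ w_r = ℚ v₁ + ⋯ + ℚ v_d` (so that the dimension is `d`) and all `a > 0` and `σ₁`: for all `α` in `ℝ^M` outside a set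
of Hausdorff dimension at most `(M + δ max(1 - 2 η, 0) + κ) / (1 + τ)`, for all `b`, for all but finitely many such `q`, for ALL
intervals `[A, B]` with `2 ≤ A` in the window of length `2 q ^ κ` at `G q`, ALL `k` and all `σ ∈ [r - d/2, σ₁]`:
`∫_A^B |ζ_r(σ + it; a, w)|^{2k} dt ≤ (B - A) B^{2 k η}`. For `τ = 1 / M` the bound for the dimension is less than `M` if
`δ max(1 - 2 η, 0) + κ < 1`; and so the statement holds for almost all `α`. For functions `G` of linear growth every `η > 0` is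
admissible here, with `κ < 2 η`, `κ < 1`.
-/

set_option autoImplicit false

namespace Pool.Agent.Results.MP_047497_nt.SimultaneousApproximations

open Pool.Agent.N671.DA (Solves Expanding expanding_pow)
open Pool.Agent.Results.MP_047497_nt.AlmostAllWeights (IsBarnesZeta weightDim exists_zeta span_of_matrix)

/-- All moments over the intervals near the values `G q` at the solutions `q` of `‖q α_j - β_j‖ ≤ b q^(-τ)` for all `j`: with
`d` the dimension of the weights, for all `a > 0`, `G` as above, `σ₁`, `η ≥ 0`, `0 ≤ κ ≤ 1`, `β ∈ ℝ^M`, `τ > 0` the exceptional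
set of the `α ∈ ℝ^M` has Hausdorff dimension at most `(M + δ max(1 - 2 η, 0) + κ) / (1 + τ)`. -/
def MomentsNearApproximations (r : ℕ) (w : Fin r → ℝ) : Prop :=
  ∀ (a : ℝ) (Z : ℂ → ℂ), 0 < a → IsBarnesZeta r a w Z → ∀ (G : ℕ → ℝ) (δ : ℝ), Expanding G δ →
    ∀ σ₁ η κ : ℝ, 0 ≤ η → 0 ≤ κ → κ ≤ 1 → ∀ (M : ℕ) (β : Fin M → ℝ) (τ : ℝ), 0 < τ →
      ∃ E : Set (Fin M → ℝ), dimH E ≤ ENNReal.ofReal ((M + (δ * max (1 - 2 * η) 0 + κ)) / (1 + τ)) ∧
        ∀ α, α ∉ E → ∀ b : ℝ, ∃ Q : ℕ, ∀ q : ℕ, Q ≤ q → Solves α β q (b * (q : ℝ) ^ (-τ)) →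
          ∀ (k : ℕ) (σ A B : ℝ), (r : ℝ) - (weightDim r w : ℝ) / 2 ≤ σ → σ ≤ σ₁ → 2 ≤ A → A ≤ B →
            |A - G q| ≤ (q : ℝ) ^ κ → |B - G q| ≤ (q : ℝ) ^ κ →
              ∫ t in A..B, ‖Z (σ + t * Complex.I)‖ ^ (2 * k) ≤ (B - A) * B ^ (2 * k * η)

theorem zeta_eq {r : ℕ} {a : ℝ} {w : Fin r → ℝ} {c : ℕ → ℂ} (ha : 0 < a) (hw : ∀ i, 0 < w i)
    (hc : Pool.Agent.Y930.Bz.Tay a w c) {Z : ℂ → ℂ} (hZ : IsBarnesZeta r a w Z) (σ : ℝ) {t : ℝ}
    (ht : 0 < t) : Z ((σ : ℂ) + t * Complex.I) =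
      Pool.Agent.H131R5.BZ.FF a w c ((σ : ℂ) + t * Complex.I) := by
  have hE := Pool.Agent.Y930.Bz.eq_FF ha hw hc (fun s hs => hZ.holomorphic s hs)
    (fun s hs => hZ.series s hs)
  have hm : ((σ : ℂ) + t * Complex.I) ∈ Pool.Agent.Y930.Bz.Om r := by
    intro k _ _ h
    have := congrArg Complex.im h
    simp at this
    linarith
  exact hE _ hm

theorem weightDim_eq {d : ℕ} {v : Fin d → ℝ} (hv : LinearIndependent ℚ v) {r : ℕ} {w : Fin r → ℝ}
    (hspan : Submodule.span ℚ (Set.range w) = Submodule.span ℚ (Set.range v)) :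
    weightDim r w = d := by
  unfold weightDim
  rw [hspan, finrank_span_eq_card hv]
  simp

theorem small_of_good {d : ℕ} {v : Fin d → ℝ} (hv : LinearIndependent ℚ v)
    (hG : Pool.Agent.Y616.BM.Good v) {r : ℕ} (hr : 2 ≤ r) {w : Fin r → ℝ} (hw : ∀ i, 0 < w i)
    (hspan : Submodule.span ℚ (Set.range w) = Submodule.span ℚ (Set.range v)) : MomentsNearApproximations r w := by
  intro a Z ha hZ G δ hE σ₁ η κ hη hκ hκ1 M β τ hτ
  rw [weightDim_eq hv hspan]
  obtain ⟨c, hc⟩ := Pool.Agent.H131R5.BZ.exists_taylor a hw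
  obtain ⟨E, hE1, hE2⟩ := Pool.Agent.N407.BZ.ff_da hv hG hr ha hw hspan hc hE σ₁ hη hκ hκ1 β hτ
  refine ⟨E, hE1, fun α hα b => ?_⟩
  obtain ⟨Q, hQ⟩ := hE2 α hα b
  refine ⟨Q, fun q hq h1 k σ A B g1 g2 g3 g4 g5 g6 => Pool.Agent.N407.BZ.moment_le g3 g4 hη (fun t ht1 ht2 => ?_) k⟩
  rw [zeta_eq ha hw hc hZ σ (by linarith)]
  exact hQ q hq h1 t σ (by linarith) (Pool.Agent.N407.BZ.mid_win ht1 ht2 g5 g6) g1 g2

/-- (1) The Barnes multiple zeta function exists (as defined in `AlmostAllWeights`) for all `r`, `a > 0` and positive weights `w`.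
(2) For every `d` and almost every `v ∈ ℝ^d`: all positive weights `w`, in any number `r ≥ 2`, which span the same `ℚ`-space as
`v` have dimension `d` and satisfy `MomentsNearApproximations`. (3) For `2 ≤ r` and every rational `r × d` matrix `B` of rank
`d`, for almost every `v ∈ ℝ^d` this holds for the weights `w = B v`, if they are positive. (4) Almost all positive `w ∈ ℝ^r`,
`r ≥ 2`, have dimension `r` and satisfy `MomentsNearApproximations`. (5) `c v ^ δ` with `c > 0`, `δ ≥ 1` is an example of `G`. -/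
theorem result :
    (∀ (r : ℕ) (a : ℝ) (w : Fin r → ℝ), 0 < a → (∀ i, 0 < w i) →
      ∃ Z : ℂ → ℂ, IsBarnesZeta r a w Z) ∧
    (∀ d : ℕ, ∀ᵐ v : Fin d → ℝ, LinearIndependent ℚ v ∧
      ∀ (r : ℕ) (w : Fin r → ℝ), 2 ≤ r → (∀ i, 0 < w i) →
        Submodule.span ℚ (Set.range w) = Submodule.span ℚ (Set.range v) →
        weightDim r w = d ∧ MomentsNearApproximations r w) ∧
    (∀ r d : ℕ, 2 ≤ r → ∀ B : Matrix (Fin r) (Fin d) ℚ, Function.Injective B.mulVec →
      ∀ᵐ v : Fin d → ℝ, (∀ i, 0 < (B.map (fun q : ℚ => (q : ℝ))).mulVec v i) →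
        weightDim r ((B.map (fun q : ℚ => (q : ℝ))).mulVec v) = d ∧
          MomentsNearApproximations r ((B.map (fun q : ℚ => (q : ℝ))).mulVec v)) ∧
    (∀ r : ℕ, 2 ≤ r → ∀ᵐ w : Fin r → ℝ, (∀ i, 0 < w i) →
      weightDim r w = r ∧ MomentsNearApproximations r w) ∧
    ∀ c δ : ℝ, 0 < c → 1 ≤ δ → Expanding (fun v => c * (v : ℝ) ^ δ) δ := by
  refine ⟨exists_zeta, fun d => ?_, fun r d hr B hB => ?_, fun r hr => ?_, fun α δ hα hδ => expanding_pow hα hδ⟩
  · filter_upwards [Pool.Agent.Y616.BM.ae_good d, Pool.Agent.Y616.BM.ae_indep d] with v hG hv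
    exact ⟨hv, fun r w hr hw hspan => ⟨weightDim_eq hv hspan, small_of_good hv hG hr hw hspan⟩⟩
  · filter_upwards [Pool.Agent.Y616.BM.ae_good d, Pool.Agent.Y616.BM.ae_indep d] with v hG hv hw
    have hspan := span_of_matrix B hB v
    exact ⟨weightDim_eq hv hspan, small_of_good hv hG hr hw hspan⟩
  · filter_upwards [Pool.Agent.Y616.BM.ae_good r, Pool.Agent.Y616.BM.ae_indep r] with v hG hv hw
    exact ⟨weightDim_eq hv rfl, small_of_good hv hG hr hw rfl⟩

end Pool.Agent.Results.MP_047497_nt.SimultaneousApproximations
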